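import Pool.Agent.U79.GZ.Stm2
import Pool.Agent.U255.GY.DSC

/-!
# Project GZ, package DSC1G (helper95): the first Selmer group of the twist
-/

set_option autoImplicit false
set_option linter.unusedVariables false
set_option linter.unusedSectionVars false

open scoped Classical

namespace Pool.Agent.U95.GZ

open Finset hiding ext
open Pool.Agent.Y703.CQ (nr)
open Pool.Agent.U115.GE (Qs ELS SelSet sel RtG lsol_of_qs qs_sq qs_sqb)
open Pool.Agent.U115.TP (LSol)
open Pool.Agent.U79.GY (Cfg Ok Hc Sp In Cl Mod cfg)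
open Pool.Agent.U79.GZ
open Pool.Agent.U255.GY (ff dv uu xx Hyp eq_uu uu_dvd dv_not xx_zero row ne_of_mem)

/-! ### the local images are groups -/

section

variable {K : Type} [Field K] {a b d d' : K}

/-- the class of `d` is in the local image -/
def La (a b d : K) : Prop :=
  IsSquare d ∨ IsSquare (b * d) ∨
    ∃ X Y : K, X ≠ 0 ∧ Y ^ 2 = X * (X ^ 2 + a * X + b) ∧ IsSquare (X * d)

theorem la_sq {t : K} (h : La a b d) : La a b (d * t ^ 2) := by
  rcases h with ⟨s, hs⟩ | ⟨s, hs⟩ | ⟨X, Y, hX, hY, s, hs⟩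
  · exact Or.inl ⟨s * t, by rw [hs]; ring⟩
  · exact Or.inr (Or.inl ⟨s * t, by linear_combination t ^ 2 * hs⟩)
  · exact Or.inr (Or.inr ⟨X, Y, hX, hY, s * t, by linear_combination t ^ 2 * hs⟩)

theorem la_b (hb : b ≠ 0) (h : La a b d) : La a b (b * d) := by
  rcases h with ⟨s, hs⟩ | h | ⟨X, Y, hX, hY, s, hs⟩
  · exact Or.inr (Or.inl ⟨b * s, by rw [hs]; ring⟩)
  · exact Or.inl h
  · refine Or.inr (Or.inr ⟨b / X, b * Y / X ^ 2, div_ne_zero hb hX, ?_, b * s / X, ?_⟩)
    · field_simp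
      linear_combination hY
    · field_simp
      linear_combination hs

theorem la_mul (hb : b ≠ 0) (hd : d ≠ 0) (hd' : d' ≠ 0) (h : La a b d)
    (h' : La a b d') : La a b (d * d') := by
  rcases h with ⟨s, hs⟩ | ⟨s, hs⟩ | ⟨X, Y, hX, hY, s, hs⟩
  · have := la_sq (t := s) h'
    have e : d * d' = d' * s ^ 2 := by rw [hs]; ring
    rw [e]
    exact this
  · have h1 := la_sq (t := s / b) (la_b hb h')
    have e : b * d' * (s / b) ^ 2 = d * d' := by
      field_simp
      linear_combination -hs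
    rwa [e] at h1
  · rcases h' with ⟨s', hs'⟩ | ⟨s', hs'⟩ | ⟨X', Y', hX', hY', s', hs'⟩
    · have := la_sq (a := a) (b := b) (d := d) (t := s') (Or.inr (Or.inr ⟨X, Y, hX, hY, s, hs⟩))
      have e : d * d' = d * s' ^ 2 := by rw [hs']; ring
      rw [e]
      exact this
    · have h1 := la_sq (t := s' / b)
        (la_b (a := a) (d := d) hb (Or.inr (Or.inr ⟨X, Y, hX, hY, s, hs⟩)))
      have e : b * d * (s' / b) ^ 2 = d * d' := by
        field_simp
        linear_combination -hs'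
      rwa [e] at h1
    · by_cases hXX : X = X'
      · left
        subst hXX
        refine ⟨s * s' / X, ?_⟩
        have h1 : (s * s' / X) * (s * s' / X) = (s * s) * (s' * s') / (X * X) := by
          field_simp
        rw [h1, ← hs, ← hs']
        field_simp
      · have hne : X' - X ≠ 0 := sub_ne_zero.2 fun h => hXX h.symm
        obtain ⟨l, hl⟩ : ∃ l : K, l * (X' - X) = Y' - Y := ⟨(Y' - Y) / (X' - X), by field_simp⟩
        obtain ⟨m, hm⟩ : ∃ m : K, m = Y - l * X := ⟨_, rfl⟩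
        have hY1 : Y = l * X + m := by rw [hm]; ring
        have hY2 : Y' = l * X' + m := by rw [hm]; linear_combination -hl
        obtain ⟨Z, hZ⟩ : ∃ Z : K, Z = l ^ 2 - a - X - X' := ⟨_, rfl⟩
        have hf1 : X ^ 3 + (a - l ^ 2) * X ^ 2 + (b - 2 * l * m) * X - m ^ 2 = 0 := by
          rw [hY1] at hY
          linear_combination -hY
        have hf2 : X' ^ 3 + (a - l ^ 2) * X' ^ 2 + (b - 2 * l * m) * X' - m ^ 2 = 0 := by
          rw [hY2] at hY'
          linear_combination -hY'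
        have he2 : X ^ 2 + X * X' + X' ^ 2 + (a - l ^ 2) * (X + X') + (b - 2 * l * m) = 0 := by
          apply mul_left_cancel₀ hne
          rw [mul_zero]
          linear_combination hf2 - hf1
        have he3 : X * X' * Z = m ^ 2 := by
          rw [hZ]
          linear_combination hf1 - X * he2
        have he4 : X * X' + X * Z + X' * Z = b - 2 * l * m := by
          rw [hZ]
          linear_combination -he2
        have hsum : X + X' + Z = l ^ 2 - a := by rw [hZ]; ring
        by_cases hm0 : m = 0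
        · rw [hm0] at he3 he4
          have hZ0 : Z = 0 := by
            have : X * X' * Z = 0 := by rw [he3]; ring
            exact (mul_eq_zero.1 this).resolve_left (mul_ne_zero hX hX')
          rw [hZ0] at he4
          right; left
          refine ⟨s * s', ?_⟩
          have : b = X * X' := by linear_combination -he4
          rw [this]
          linear_combination d' * X' * hs + s ^ 2 * hs'
        · right; right
          have hZ0 : Z ≠ 0 := by
            rintro hZ0
            rw [hZ0, mul_zero] at he3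
            exact hm0 (pow_eq_zero_iff (two_ne_zero) |>.1 he3.symm)
          refine ⟨Z, l * Z + m, hZ0, ?_, m * s * s' / (X * X'), ?_⟩
          · have hcub : Z ^ 3 + (a - l ^ 2) * Z ^ 2 + (b - 2 * l * m) * Z - m ^ 2 = 0 := by
              rw [← he3, ← he4]
              have : a - l ^ 2 = -(X + X' + Z) := by rw [hsum]; ring
              rw [this]
              ring
            linear_combination -hcub
          · have h1 : m * s * s' / (X * X') * (m * s * s' / (X * X')) =
                m ^ 2 * (s * s) * (s' * s') / (X * X') ^ 2 := by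
              field_simp
            rw [h1, ← hs, ← hs', ← he3]
            field_simp

end

/-- the covering has a point if and only if the class is in the local image -/
theorem qs_iff {K : Type} [Field K] {a b d : ℤ} (hd : (d : K) ≠ 0) :
    Qs K a b d ↔ La (a : K) (b : K) (d : K) := by
  constructor
  · rintro ⟨N, M, e, hne, h⟩
    by_cases he : e = 0
    · left
      have hM : M ≠ 0 := hne.resolve_right (fun h => h he)
      refine ⟨N / M ^ 2, ?_⟩
      rw [he] at h
      field_simp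
      linear_combination -h
    · by_cases hM : M = 0
      · right; left
        refine ⟨N * d / e ^ 2, ?_⟩
        rw [hM] at h
        have h1 : (d : K) * N ^ 2 = b * e ^ 4 := by
          rw [h]
          field_simp
          ring
        field_simp
        linear_combination -h1
      · right; right
        have h1 : (d : K) * N ^ 2 = d ^ 2 * M ^ 4 + a * d * M ^ 2 * e ^ 2 + b * e ^ 4 := by
          rw [h]
          field_simp
        refine ⟨d * M ^ 2 / e ^ 2, d * M * N / e ^ 3, ?_, ?_, d * M / e, ?_⟩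
        · exact div_ne_zero (mul_ne_zero hd (pow_ne_zero 2 hM)) (pow_ne_zero 2 he)
        · field_simp
          linear_combination h1
        · field_simp
  · rintro (⟨s, hs⟩ | ⟨s, hs⟩ | ⟨X, Y, hX, hY, s, hs⟩)
    · exact qs_sq ⟨s, hs⟩
    · exact qs_sqb hd ⟨s, hs⟩
    · have hs0 : s ≠ 0 := by
        rintro rfl
        rw [mul_zero] at hs
        exact mul_ne_zero hX hd hs
      refine ⟨Y / s, s / d, 1, Or.inr one_ne_zero, ?_⟩
      have hX' : X = s * s / d := by
        rw [← hs]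
        field_simp
      rw [hX'] at hY
      field_simp at hY ⊢
      linear_combination hY

theorem qs_mul {K : Type} [Field K] {a b d d' : ℤ} (hb : (b : K) ≠ 0) (hd : (d : K) ≠ 0)
    (hd' : (d' : K) ≠ 0) (h : Qs K a b d) (h' : Qs K a b d') : Qs K a b (d * d') := by
  rw [qs_iff hd] at h
  rw [qs_iff hd'] at h'
  rw [qs_iff (by push_cast; exact mul_ne_zero hd hd')]
  push_cast
  exact la_mul hb hd hd' h h'

theorem qs_of_sq {K : Type} [Field K] {a b d t : ℤ} (hd : (d : K) ≠ 0) (ht : (t : K) ≠ 0)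
    (h : Qs K a b (d * t ^ 2)) : Qs K a b d := by
  rw [qs_iff (by push_cast; exact mul_ne_zero hd (pow_ne_zero 2 ht))] at h
  rw [qs_iff hd]
  push_cast at h
  have h1 := la_sq (t := ((t : K))⁻¹) h
  have e : (d : K) * (t : K) ^ 2 * ((t : K))⁻¹ ^ 2 = d := by
    field_simp
  rwa [e] at h1

theorem ls_mul {a b : ℤ} {M : ℕ} {d d' : ℤ} (hb : b ≠ 0) (hd : d ≠ 0) (hd' : d' ≠ 0)
    (h : LS a b M d) (h' : LS a b M d') : LS a b M (d * d') :=
  ⟨qs_mul (by exact_mod_cast hb) (by exact_mod_cast hd) (by exact_mod_cast hd') h.1 h'.1,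
    fun l _ hl => qs_mul (by exact_mod_cast hb) (by exact_mod_cast hd) (by exact_mod_cast hd')
      (h.2 l hl) (h'.2 l hl)⟩

theorem ls_of_sq {a b : ℤ} {M : ℕ} {d t : ℤ} (hd : d ≠ 0) (ht : t ≠ 0)
    (h : LS a b M (d * t ^ 2)) : LS a b M d :=
  ⟨qs_of_sq (by exact_mod_cast hd) (by exact_mod_cast ht) h.1,
    fun l _ hl => qs_of_sq (by exact_mod_cast hd) (by exact_mod_cast ht) (h.2 l hl)⟩

theorem ls_one (a b : ℤ) (M : ℕ) : LS a b M 1 :=
  ⟨qs_sq ⟨1, by push_cast; ring⟩, fun l _ hl => qs_sq ⟨1, by push_cast; ring⟩⟩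

theorem ls_prod {a b : ℤ} {M : ℕ} (hb : b ≠ 0) {T : Finset ℕ} {g : ℕ → ℤ}
    (h0 : ∀ q ∈ T, g q ≠ 0) (h : ∀ q ∈ T, LS a b M (g q)) : LS a b M (∏ q ∈ T, g q) := by
  induction T using Finset.induction_on with
  | empty =>
    rw [Finset.prod_empty]
    exact ls_one a b M
  | insert q T hq ih =>
    rw [Finset.prod_insert hq]
    exact ls_mul hb (h0 q (Finset.mem_insert_self _ _))
      (Finset.prod_ne_zero_iff.2 fun r hr => h0 r (Finset.mem_insert_of_mem hr))
      (h q (Finset.mem_insert_self _ _))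
      (ih (fun r hr => h0 r (Finset.mem_insert_of_mem hr))
        (fun r hr => h r (Finset.mem_insert_of_mem hr)))

/-! ### squarefree parts -/

theorem exists_sqf {n : ℤ} (hn : n ≠ 0) : ∃ v t : ℤ, Squarefree v ∧ t ≠ 0 ∧ n = v * t ^ 2 := by
  obtain ⟨v, t, h, hv⟩ := Nat.sq_mul_squarefree n.natAbs
  have ht : t ≠ 0 := by
    rintro rfl
    rw [zero_pow two_ne_zero, zero_mul] at h
    exact hn (Int.natAbs_eq_zero.1 h.symm)
  have h1 : ((t : ℤ)) ^ 2 * (v : ℤ) = (n.natAbs : ℤ) := by exact_mod_cast h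
  rcases Int.natAbs_eq n with h2 | h2
  · refine ⟨v, t, Int.squarefree_natCast.2 hv, by exact_mod_cast ht, ?_⟩
    rw [h2, ← h1]
    ring
  · refine ⟨-v, t, ?_, by exact_mod_cast ht, ?_⟩
    · have h3 : Squarefree (v : ℤ) := Int.squarefree_natCast.2 hv
      rw [← Int.squarefree_natAbs, Int.natAbs_neg, Int.squarefree_natAbs]
      exact h3
    · rw [h2, ← h1]
      ring

theorem vs_dvd {M : ℕ} (hM : 0 < M) {v : ℤ} (h : Vs M v) : v.natAbs ∣ M := by
  have h1 : Squarefree v.natAbs := Int.squarefree_natAbs.2 h.1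
  rw [← Nat.prod_primeFactors_of_squarefree h1]
  refine (Finset.prod_dvd_prod_of_subset _ _ _ fun l hl => ?_).trans (Nat.prod_primeFactors_dvd M)
  rw [Nat.mem_primeFactors] at hl ⊢
  exact ⟨hl.1, h.2 l hl.1 (Int.natCast_dvd.2 hl.2.1), hM.ne'⟩

theorem vs_finite {M : ℕ} (hM : 0 < M) (Q : ℤ → Prop) : {v : ℤ | Vs M v ∧ Q v}.Finite := by
  refine (Set.finite_Icc (-(M : ℤ)) (M : ℤ)).subset ?_
  rintro v ⟨hv, -⟩
  have h1 := Nat.le_of_dvd hM (vs_dvd hM hv)
  rw [Set.mem_Icc]
  omega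

/-! ### symbols -/

theorem nz_eq (p : ℕ) (z : ℤ) : nz p z = Pool.Agent.U255.GY.nz p z := rfl

theorem nz_mul {p : ℕ} [hp : Fact p.Prime] {m n : ℤ} (hm : ¬ (p : ℤ) ∣ m)
    (hn : ¬ (p : ℤ) ∣ n) : nz p (m * n) = nz p m + nz p n := by
  rw [nz_eq, nz_eq, nz_eq]
  exact Pool.Agent.U255.GY.nz_mul (fun h => hm ((ZMod.intCast_zmod_eq_zero_iff_dvd _ _).1 h))
    (fun h => hn ((ZMod.intCast_zmod_eq_zero_iff_dvd _ _).1 h))

theorem nz_one (p : ℕ) : nz p 1 = 0 := by
  unfold nz
  rw [if_pos]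
  exact ⟨1, by push_cast; ring⟩

theorem not_dvd_one {p : ℕ} (hp : p.Prime) : ¬ (p : ℤ) ∣ 1 := by
  intro h
  have h1 : p ∣ 1 := by exact_mod_cast h
  exact hp.one_lt.ne' (Nat.dvd_one.1 h1)

theorem not_dvd_prod {p : ℕ} (hp : p.Prime) {ι : Type} {T : Finset ι} {g : ι → ℤ}
    (h : ∀ t ∈ T, ¬ (p : ℤ) ∣ g t) : ¬ (p : ℤ) ∣ ∏ t ∈ T, g t := by
  rw [(Nat.prime_iff_prime_int.1 hp).dvd_finsetProd_iff]
  rintro ⟨t, ht, h1⟩
  exact h t ht h1

theorem nz_finprod {p : ℕ} [hp : Fact p.Prime] {ι : Type} {T : Finset ι} {g : ι → ℤ}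
    (h : ∀ t ∈ T, ¬ (p : ℤ) ∣ g t) : nz p (∏ t ∈ T, g t) = ∑ t ∈ T, nz p (g t) := by
  induction T using Finset.induction_on with
  | empty => rw [Finset.prod_empty, Finset.sum_empty, nz_one]
  | insert t T ht ih =>
    rw [Finset.prod_insert ht, Finset.sum_insert ht, nz_mul (h t (Finset.mem_insert_self _ _))
      (not_dvd_prod hp.out fun r hr => h r (Finset.mem_insert_of_mem hr)),
      ih fun r hr => h r (Finset.mem_insert_of_mem hr)]

theorem mem_Gn {M : ℕ} {g : ℤ} (hg : g ∈ Gn M) : g = -1 ∨ ∃ l ∈ M.primeFactors, (l : ℤ) = g := by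
  unfold Gn at hg
  rcases Finset.mem_insert.1 hg with h | hg
  · exact Or.inl h
  · right
    rw [Finset.mem_image] at hg
    obtain ⟨l, hl, rfl⟩ := hg
    simp only [Finset.bind_def, Finset.pure_def, Finset.mem_sup, Finset.mem_singleton] at hl
    obtain ⟨a, ha, h⟩ := hl
    exact ⟨a, ha, h.symm⟩

theorem not_dvd_gn {p M : ℕ} (hp : p.Prime) (hpM : ¬ p ∣ M) {g : ℤ} (hg : g ∈ Gn M) :
    ¬ (p : ℤ) ∣ g := by
  rcases mem_Gn hg with rfl | ⟨l, hl, rfl⟩
  · intro h
    exact not_dvd_one hp (by rwa [dvd_neg] at h)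
  · intro h
    have h1 : p ∣ l := by exact_mod_cast h
    exact hpM (h1.trans (Nat.dvd_of_mem_primeFactors hl))

theorem not_dvd_term {p M : ℕ} (hp : p.Prime) (hpM : ¬ p ∣ M) (w : ℤ → ℤ) (q : ℕ) {g : ℤ}
    (hg : g ∈ Gn M) : ¬ (p : ℤ) ∣ (if IsSquare (w g : ZMod q) then 1 else g) := by
  split_ifs
  · exact not_dvd_one hp
  · exact not_dvd_gn hp hpM hg

theorem not_dvd_vv {p M : ℕ} (hp : p.Prime) (hpM : ¬ p ∣ M) (w : ℤ → ℤ) (q : ℕ) :
    ¬ (p : ℤ) ∣ vv M w q :=
  not_dvd_prod hp fun g hg => not_dvd_term hp hpM w q hg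

theorem nz_vv {p M : ℕ} [hp : Fact p.Prime] (hpM : ¬ p ∣ M) (w : ℤ → ℤ) (q : ℕ) :
    nz p (vv M w q) = gm M w p q := by
  unfold vv gm
  rw [nz_finprod fun g hg => not_dvd_term hp.out hpM w q hg]
  refine Finset.sum_congr rfl fun g hg => ?_
  by_cases h : IsSquare (w g : ZMod q)
  · have h1 : nz q (w g) = 0 := if_pos h
    rw [if_pos h, nz_one, h1, mul_zero]
  · have h1 : nz q (w g) = 1 := if_neg h
    rw [if_neg h, h1, mul_one]

/-! ### the main theorem -/

theorem t_DSC1G : S_DSC1G := by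
  intro hCFG a b M w S hCl H hGd
  obtain ⟨hOk, hSp, hIn⟩ := hCFG b (a ^ 2 - 4 * b) M H.hM H.nb H.nc
  set G := cfg b (a ^ 2 - 4 * b) M with hG
  have hS : ∀ p ∈ S, p.Prime := fun p hp => by
    rcases hCl p hp with h | h
    · exact h.1
    · exact h.1
  have hSM : ∀ p ∈ S, ¬ p ∣ M := fun p hp => by
    rcases hCl p hp with h | h
    · exact ((hSp p h.1).1 h).1
    · exact ((hIn p h.1).1 h).1
  have hb0 : b ≠ 0 := by
    intro h
    apply H.nb
    rw [h]
    exact ⟨0, by ring⟩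
  set D : ℕ := ∏ p ∈ S, p with hD
  have hDpos : 0 < D := Finset.prod_pos fun p hp => (hS p hp).pos
  have hD0 : (D : ℤ) ≠ 0 := by exact_mod_cast hDpos.ne'
  have hbD : b * (D : ℤ) ^ 2 ≠ 0 := mul_ne_zero hb0 (pow_ne_zero 2 hD0)
  have hbM : ∀ p : ℕ, (p : ℤ) ∣ b → p ∣ M := fun p h => (Int.natCast_dvd.1 h).trans H.hM.hb
  have hHyp : Hyp a b M (Hc G) S := by
    intro p hp
    have hpp := hS p hp
    refine ⟨hpp, hSM p hp, ?_⟩
    rcases hCl p hp with h | h
    · exact Or.inl ⟨h.2, ((hSp p hpp).1 h).2.1, ((hSp p hpp).1 h).2.2⟩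
    · exact Or.inr ⟨(hOk.hB _ h.2).2.2, ((hIn p hpp).1 h).2.1, ((hIn p hpp).1 h).2.2⟩
  set V : Set ℤ := {v : ℤ | Vs M v ∧ LS (a * D) (b * D ^ 2) M v} with hV
  have hVfin : V.Finite := vs_finite H.hM.pos _
  -- the squarefree part of `b`
  obtain ⟨b0, t, hb0s, ht0, hbt⟩ := exists_sqf hb0
  have hb00 : b0 ≠ 0 := hb0s.ne_zero
  have hb01 : (1 : ℤ) ≠ b0 := by
    rintro rfl
    apply H.nb
    exact ⟨t, by rw [hbt]; ring⟩
  have h1V : (1 : ℤ) ∈ V := by
    refine ⟨⟨squarefree_one, fun l hl h => absurd h (not_dvd_one hl)⟩, ls_one _ _ _⟩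
  have hbV : b0 ∈ V := by
    refine ⟨⟨hb0s, fun l hl h => hbM l (by rw [hbt]; exact h.mul_right _)⟩, ?_, fun l _ hl => ?_⟩
    · refine qs_sqb (by exact_mod_cast hb00) ⟨b0 * t * D, ?_⟩
      rw [hbt]; push_cast; ring
    · refine qs_sqb (by exact_mod_cast hb00) ⟨b0 * t * D, ?_⟩
      rw [hbt]; push_cast; ring
  have hVeq : ({1, b0} : Set ℤ) = V := by
    refine Set.eq_of_subset_of_ncard_le ?_ ?_ hVfin
    · intro v hv
      rcases hv with rfl | hv
      · exact h1V
      · rw [Set.mem_singleton_iff.1 hv]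
        exact hbV
    · rw [Set.ncard_pair hb01]
      exact H.s1
  -- the elements of `V` are squares modulo the split primes
  have hVz : ∀ v ∈ V, ∀ p : ℕ, Sp G p → nz p v = 0 := by
    intro v hv p hp
    have hpM : ¬ p ∣ M := ((hSp p hp.1).1 hp).1
    have hF : Fact p.Prime := ⟨hp.1⟩
    rw [← hVeq] at hv
    rcases hv with rfl | hv
    · exact nz_one p
    · rw [Set.mem_singleton_iff.1 hv]
      have hpb : ¬ (p : ℤ) ∣ b := fun h => hpM (hbM p h)
      have hpt : ((t : ℤ) : ZMod p) ≠ 0 := by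
        rw [Ne, ZMod.intCast_zmod_eq_zero_iff_dvd]
        intro h
        exact hpb (by rw [hbt]; exact (h.pow two_ne_zero).mul_left _)
      obtain ⟨s, hs⟩ := ((hSp p hp.1).1 hp).2.1
      unfold nz
      rw [if_pos]
      refine ⟨s / t, ?_⟩
      rw [hbt] at hs
      push_cast at hs
      field_simp
      linear_combination hs
  have hsub : SelSet (a * (D : ℤ)) (b * (D : ℤ) ^ 2) ⊆ V := by
    rintro d ⟨hd, hdR, hdp⟩
    have hd0 : d ≠ 0 := hd.ne_zero
    have hL : ∀ (l : ℕ) [Fact l.Prime], LSol (a * (D : ℤ)) (b * (D : ℤ) ^ 2) d l :=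
      fun l _ => lsol_of_qs hd (hdp l)
    have hdLS : LS (a * (D : ℤ)) (b * (D : ℤ) ^ 2) M d := ⟨hdR, fun l _ _ => hdp l⟩
    set T := dv (Hc G) S d with hT
    have hTS : T ⊆ S := Finset.filter_subset _ _
    have hTp : ∀ q ∈ T, q.Prime := fun q hq => hS q (hTS hq)
    have hTsp : ∀ q ∈ T, Sp G q := fun q hq => ⟨hTp q hq, (Finset.mem_filter.1 hq).2.1⟩
    have hu := eq_uu (Hc G) S hS d
    rw [← hT] at hu
    have hub : ∀ p : ℕ, p.Prime → (p : ℤ) ∣ uu (Hc G) S d → (p : ℤ) ∣ b := fun p hp h =>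
      uu_dvd hHyp hd hL hp h
    set u := uu (Hc G) S d with hu'
    have hu0 : u ≠ 0 := by
      intro h
      rw [h, mul_zero] at hu
      exact hd0 hu
    have hv0 : ∀ q, vv M w q ≠ 0 := by
      intro q
      unfold vv
      refine Finset.prod_ne_zero_iff.2 fun g hg => ?_
      split_ifs
      · exact one_ne_zero
      · rcases mem_Gn hg with rfl | ⟨l, hl, rfl⟩
        · norm_num
        · have := (Nat.prime_of_mem_primeFactors hl).ne_zero
          exact_mod_cast this
    have hq0 : ∀ q ∈ T, (q : ℤ) * vv M w q ≠ 0 := fun q hq =>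
      mul_ne_zero (by exact_mod_cast (hTp q hq).ne_zero) (hv0 q)
    have hLSn : LS (a * (D : ℤ)) (b * (D : ℤ) ^ 2) M (d * ∏ q ∈ T, ((q : ℤ) * vv M w q)) :=
      ls_mul hbD hd0 (Finset.prod_ne_zero_iff.2 hq0) hdLS
        (ls_prod hbD hq0 fun q hq => H.hL q (hTsp q hq))
    set W : ℤ := u * ∏ q ∈ T, vv M w q with hW
    have hPv : (∏ q ∈ T, vv M w q) ≠ 0 := Finset.prod_ne_zero_iff.2 fun q _ => hv0 q
    have hW0 : W ≠ 0 := mul_ne_zero hu0 hPv
    set R : ℤ := ((∏ q ∈ T, q : ℕ) : ℤ) with hR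
    have hR0 : R ≠ 0 := by
      intro h
      rw [h, zero_mul] at hu
      exact hd0 hu
    have hn : d * ∏ q ∈ T, ((q : ℤ) * vv M w q) = W * R ^ 2 := by
      rw [Finset.prod_mul_distrib, hW]
      have e1 : (∏ q ∈ T, (q : ℤ)) = R := by rw [hR]; push_cast; rfl
      rw [e1]
      conv_lhs => rw [hu]
      ring
    rw [hn] at hLSn
    have hLSW := ls_of_sq hW0 hR0 hLSn
    obtain ⟨v0, s, hv0s, hs0, hWs⟩ := exists_sqf hW0
    have hv0V : v0 ∈ V := by
      refine ⟨⟨hv0s, fun l hl h => ?_⟩, ?_⟩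
      · by_contra hlM
        have h1 : (l : ℤ) ∣ W := by rw [hWs]; exact h.mul_right _
        rcases (Nat.prime_iff_prime_int.1 hl).dvd_or_dvd h1 with h2 | h2
        · exact hlM (hbM l (hub l hl h2))
        · exact not_dvd_prod hl (fun q _ => not_dvd_vv hl hlM w q) h2
      · rw [hWs] at hLSW
        exact ls_of_sq hv0s.ne_zero hs0 hLSW
    -- the symbols of the cofactor
    have hnzu : ∀ p ∈ S, Hc G p → nz p u = ∑ q ∈ T, gm M w p q := by
      intro p hp hpH
      have hpp := hS p hp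
      have hF : Fact p.Prime := ⟨hpp⟩
      have hpM := hSM p hp
      have hpu : ¬ (p : ℤ) ∣ u := dv_not hS hd hp hpH
      have hpP : ¬ (p : ℤ) ∣ ∏ q ∈ T, vv M w q :=
        not_dvd_prod hpp fun q _ => not_dvd_vv hpp hpM w q
      have hpW : ¬ (p : ℤ) ∣ W := by
        intro h
        rcases (Nat.prime_iff_prime_int.1 hpp).dvd_or_dvd h with h | h
        · exact hpu h
        · exact hpP h
      have hps : ¬ (p : ℤ) ∣ s := fun h => hpW (by rw [hWs]; exact (h.pow two_ne_zero).mul_left _)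
      have hpv0 : ¬ (p : ℤ) ∣ v0 := fun h => hpW (by rw [hWs]; exact h.mul_right _)
      have h1 : nz p W = 0 := by
        rw [hWs, sq, nz_mul hpv0 ?_, nz_mul hps hps, hVz v0 hv0V p ⟨hpp, hpH⟩,
          CharTwo.add_self_eq_zero, add_zero]
        intro h
        rcases (Nat.prime_iff_prime_int.1 hpp).dvd_or_dvd h with h | h
        · exact hps h
        · exact hps h
      rw [hW, nz_mul hpu hpP, nz_finprod (fun q _ => not_dvd_vv hpp hpM w q)] at h1
      have h2 : ∑ q ∈ T, nz p (vv M w q) = ∑ q ∈ T, gm M w p q :=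
        Finset.sum_congr rfl fun q _ => nz_vv hpM w q
      rw [h2] at h1
      have e3 : ∀ A B : ZMod 2, A + B = 0 → A = B := by decide
      exact e3 _ _ h1
    -- the solution vanishes
    have hx := hGd (xx (Hc G) S d) (fun p hp => xx_zero hp) (by
      intro p hp hpH
      have h1 := row H.hM hHyp hd hL hp hpH
      have h2 : ∑ q ∈ S, gm M w p q * xx (Hc G) S d q = ∑ q ∈ T, gm M w p q := by
        have h6 : S.filter (· ∈ T) = T := by
          ext r
          simp only [Finset.mem_filter]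
          exact ⟨fun h => h.2, fun h => ⟨hTS h, h⟩⟩
        conv_rhs => rw [← h6]
        rw [Finset.sum_filter]
        refine Finset.sum_congr rfl fun r _ => ?_
        unfold xx
        by_cases hr : r ∈ T
        · rw [if_pos hr, if_pos hr, mul_one]
        · rw [if_neg hr, if_neg hr, mul_zero]
      have h3 : Pool.Agent.U255.GY.nz p (uu (Hc G) S d) = ∑ q ∈ T, gm M w p q :=
        hnzu p hp hpH
      rw [h3] at h1
      rw [h2]
      have e3 : ∀ A B C : ZMod 2, A + C = B → A + B + C = 0 := by decide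
      exact e3 _ _ _ h1)
    have hTe : T = ∅ := by
      rw [Finset.eq_empty_iff_forall_notMem]
      intro p hp
      have h1 := hx p
      unfold xx at h1
      rw [if_pos hp] at h1
      exact one_ne_zero h1
    have hdu : d = u := by
      conv_lhs => rw [hu, hR, hTe]
      rw [Finset.prod_empty]
      push_cast
      ring
    refine ⟨⟨hd, fun l hl h => ?_⟩, hdLS⟩
    rw [hdu] at h
    exact hbM l (hub l hl h)
  unfold sel
  exact (Set.ncard_le_ncard hsub hVfin).trans H.s1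

end Pool.Agent.U95.GZ
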